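import Pool.Agent.Q40.RS.Proj
import Pool.Agent.W418.Z.Reg

/-!
MP_4d1008_ag: regular models, proper over `ℤ`, of the schemes of finite type over `ℤ` which are
birational to the quotient of a smooth projective family `X` over a (possibly singular) projective
surface `S` over a finite field, of any relative dimension, by a relative foliation whose
degeneracy locus is the preimage of a closed subscheme of `S`. For example, let `A` be a superspecial
abelian variety over the finite field `k` (or any smooth projective variety with commuting vector
fields `D_1, ..., D_g` which are linearly independent everywhere, with `D_i ^ p = 0`), and let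
`f_1, ..., f_g` be arbitrary elements of the function field of `S`: the quotient of `S × A` by the
vector field `∑ i, f_i * D_i` (the generic fibre is an abelian variety over `k(S)` which, in
general, is not isotrivial).

The proof: (1) the surface `S` is replaced by a smooth projective surface `S'` on which all the
homogeneous coordinates of `S` and generators of the ideals of the degeneracy locus are pairwise
comparable (log resolution and toroidal blowups, starting library); (2) `X ×_S S'` is smooth and
projective; (3) where the ideal of the degeneracy locus is generated by `f`, Cramer's rule gives a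
basis of the foliation by commuting vector fields `D_i` with `D_i ^ p = 0` and `D_i c_j = δ_ij`,
which are regular, because the determinants are divisible by `f`; (4) so the quotient of `X ×_S S'`
by the saturated foliation is smooth and projective over `k`.

helper40; built on the library of the starting files (W558, W418, H920R2).
-/

set_option autoImplicit false

open AlgebraicGeometry CategoryTheory Pool.Agent.W558

namespace Pool.Agent.Results.MP_4d1008_ag.FamilyFoliations

section defs

variable {k E L : Type} [Field k] [Field E] [Field L] [Algebra k E] [Algebra k L] [Algebra E L]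
  [IsScalarTower k E L] {m n : ℕ}

/-- A foliation of height one: an `L`-linear subspace of the space of derivations of the field `L`
over `k` which is closed under the brackets `[X, Y] = X Y - Y X` and under the `p`-th powers. -/
structure IsFoliation (p : ℕ) (F : Submodule L (Derivation k L L)) : Prop where
  bracket : ∀ X ∈ F, ∀ Y ∈ F, ⁅X, Y⁆ ∈ F
  power : ∀ X ∈ F, ∃ Y ∈ F, ∀ x, X^[p] x = Y x

/-- The coordinate ring `k[s_0 / s_j, ..., s_m / s_j]` of the chart `S_j` of the projective variety
`S` over `k` with the homogeneous coordinates `s_0, ..., s_m` in `E`. -/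
noncomputable def baseChart (k : Type) [Field k] {E : Type} [Field E] [Algebra k E] {m : ℕ}
    (s : Fin (m + 1) → E) (j : Fin (m + 1)) : Subalgebra k E :=
  Algebra.adjoin k (Set.range fun i => s i / s j)

/-- The coordinate ring `k[s_0 / s_j, ..., s_m / s_j, h_0 / h_a, ..., h_n / h_a]` of the chart
`X_ja` over `S_j` of the projective scheme `X` over `S` with the homogeneous coordinates
`h_0, ..., h_n` in `L`. -/
noncomputable def chart (k : Type) [Field k] {E L : Type} [Field E] [Field L] [Algebra k L]
    [Algebra E L] {m n : ℕ} (s : Fin (m + 1) → E) (h : Fin (n + 1) → L) (j : Fin (m + 1))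
    (a : Fin (n + 1)) : Subalgebra k L :=
  Algebra.adjoin k ((Set.range fun i => algebraMap E L (s i / s j)) ∪ Set.range fun b => h b / h a)

lemma algebraMap_mem (s : Fin (m + 1) → E) (h : Fin (n + 1) → L) (j : Fin (m + 1))
    (a : Fin (n + 1)) (x : E) (hx : x ∈ baseChart k s j) : algebraMap E L x ∈ chart k s h j a :=
  Pool.Agent.Q40.RS.bch_xch s h j a x hx

/-- The homomorphism of the coordinate rings of `X_ja → S_j`. -/
noncomputable def chartMap (k : Type) [Field k] {E L : Type} [Field E] [Field L] [Algebra k E]
    [Algebra k L] [Algebra E L] [IsScalarTower k E L] {m n : ℕ} (s : Fin (m + 1) → E)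
    (h : Fin (n + 1) → L) (j : Fin (m + 1)) (a : Fin (n + 1)) :
    baseChart k s j →+* chart k s h j a :=
  ((algebraMap E L).comp (baseChart k s j).val.toRingHom).codRestrict (chart k s h j a)
    (fun x => algebraMap_mem s h j a x.1 x.2)

/-- The degeneracy ideal of the vector fields `D_1, ..., D_r` on the affine chart `Spec B`,
generated by the determinants of the matrices `(D_i c_j)` for `c_1, ..., c_r ∈ B`. -/
noncomputable def degeneracyIdeal (B : Subalgebra k L) {r : ℕ} (D : Fin r → Derivation k L L) :
    Ideal B :=
  Ideal.span {b : B | ∃ c : Fin r → B, (b : L) = (Matrix.of fun i j => D i (c j : L)).det}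

/-- The smooth projective family `X → S` with the homogeneous coordinates `s_j` of `S` in the
function field `E` of `S`, and `h_a` of `X` over `S` in the function field `L` of `X`. -/
structure IsSmoothFamily (k : Type) [Field k] {E L : Type} [Field E] [Field L] [Algebra k E]
    [Algebra k L] [Algebra E L] [IsScalarTower k E L] {m n : ℕ} (s : Fin (m + 1) → E)
    (h : Fin (n + 1) → L) : Prop where
  s_ne : ∀ j, s j ≠ 0
  h_ne : ∀ a, h a ≠ 0
  /-- `E` is the function field of `S` -/
  frac_base : ∀ j (x : E), ∃ y ∈ baseChart k s j, ∃ z ∈ baseChart k s j, z ≠ 0 ∧ x = y / z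
  /-- `L` is the function field of `X` -/
  frac : ∀ j a (x : L), ∃ y ∈ chart k s h j a, ∃ z ∈ chart k s h j a, z ≠ 0 ∧ x = y / z
  /-- `X` is smooth over `S` -/
  smooth : ∀ j a, (chartMap k s h j a).Smooth

/-- The foliation `F` on `X` is relative over `S`, of rank `r`, and the degeneracy locus is the
preimage of a proper closed subscheme of `S`: on each chart `F` is spanned by `r` vector fields
which are regular on the chart, and whose degeneracy ideal is generated by a nonzero ideal of the
coordinate ring of the chart of `S`. -/
structure IsBaseDegenerate (s : Fin (m + 1) → E) (h : Fin (n + 1) → L) (r : ℕ)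
    (F : Submodule L (Derivation k L L)) : Prop where
  relative : ∀ X ∈ F, ∀ x : E, X (algebraMap E L x) = 0
  local_basis : ∀ j a, ∃ D : Fin r → Derivation k L L, Submodule.span L (Set.range D) = F ∧
    (∀ i, ∀ b ∈ chart k s h j a, D i b ∈ chart k s h j a) ∧
    ∃ I : Ideal (baseChart k s j), I ≠ ⊥ ∧
      degeneracyIdeal (chart k s h j a) D = I.map (chartMap k s h j a)

end defs

/-- Let `k` be a finite field of characteristic `p`, and `S` a projective surface over `k`, whose
function field `E` is the function field of a smooth projective surface (this is always the case),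
or a projective variety of any dimension such that `E` has log smooth projective models
(`HasLogModels`). Let `X` be an integral scheme, smooth and projective over `S`, of any relative
dimension, `L` its function field, and `F` a relative foliation of `X` over `S` whose degeneracy
locus is the preimage of a proper closed subscheme of `S`. Let `M` be the field of rational functions
on the quotient of `X` by `F`, the field of constants of `F` in `L`. Then every integral scheme `Y`
of finite type over `ℤ` whose function field is isomorphic to `M` has a regular model proper over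
`ℤ`. -/
theorem result (p : ℕ) [Fact p.Prime] (k E L : Type) [Field k] [Finite k] [CharP k p]
    [Field E] [Field L] [Algebra k E] [Algebra k L] [Algebra E L] [IsScalarTower k E L]
    (hE : (Algebra.trdeg k E = 2 ∧ HasModel k E) ∨ HasLogModels k E)
    (m n r : ℕ) (s : Fin (m + 1) → E) (h : Fin (n + 1) → L) (hX : IsSmoothFamily k s h)
    (F : Submodule L (Derivation k L L)) (hF : IsFoliation p F) (hd : IsBaseDegenerate s h r F)
    (M : IntermediateField k L) (hM : ∀ x, x ∈ M ↔ ∀ X ∈ F, X x = 0)
    (Y : Scheme.{0}) (_ : IsIntegral Y) (g : Y ⟶ Spec (CommRingCat.of ℤ))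
    (_ : LocallyOfFiniteType g) (_ : QuasiCompact g)
    (_ : Nonempty (Y.functionField ≃+* M)) :
    ∃ (X' : Scheme.{0}) (_ : IsIntegral X') (g' : X' ⟶ Spec (CommRingCat.of ℤ)),
      IsProper g' ∧
      (∀ x : X',
        (((Module.finrank (IsLocalRing.ResidueField (X'.presheaf.stalk x))
            (IsLocalRing.CotangentSpace (X'.presheaf.stalk x)) : ℕ∞)) : WithBot ℕ∞)
          = ringKrullDim (X'.presheaf.stalk x)) ∧
      Nonempty (X'.functionField ≃+* Y.functionField) := by
  have hp : p.Prime := Fact.out
  have hpk : (p : k) = 0 := CharP.cast_eq_zero k p
  have hE' : Pool.Agent.W418.LCI.HasLM k E := by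
    rcases hE with ⟨h2, hE⟩ | hE
    · exact Pool.Agent.W418.LCI.hasLM_of_surface k _ h2 hE
    · exact Pool.Agent.W418.LCI.hasLM_of_models k _ hE
  choose D hDF hDB I hI0 hI using hd.local_basis
  obtain ⟨T, hT, MM, hfr⟩ := Pool.Agent.Q40.RS.main_proj s h hp hpk hE' hX.s_ne hX.h_ne
    hX.frac_base hX.frac hX.smooth F ⟨hF.bracket, hF.power⟩ hd.relative D hDF
    (fun i j a => hDB j a i) I hI0 hI M hM
  obtain ⟨X', hX', g', h1, h2, ⟨h3⟩⟩ := Pool.Agent.W418.Z.regular_of_LM MM hfr
  obtain ⟨ε⟩ := ‹Nonempty (Y.functionField ≃+* M)›
  exact ⟨X', hX', g', h1, h2, ⟨h3.trans ε.symm⟩⟩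

end Pool.Agent.Results.MP_4d1008_ag.FamilyFoliations
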