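import Pool.Agent.Q40.FC.Sub
import Pool.Agent.Q40.FC.Ops
import Pool.Agent.W418.Z.Reg

/-!
MP_4d1008_ag: regular models, proper over `ℤ`, of the schemes of finite type over `ℤ` which are
birational to a finite quotient `Y` of a smooth projective family `X` over a (possibly singular)
projective surface `S` over a finite field, of any relative dimension. Neither a group nor a
foliation is required: `X → Y` is any finite morphism over `S`, possibly inseparable and not Galois,
whose equivalence relation is the base change of a scheme over `S`. The main examples are the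
quotients by subgroup schemes `N` of the generic fibre of a group scheme `G` over `S` which acts
freely on `X`: the closure of `N` in `G` need not be flat over `S`. For instance, if `X` is an
abelian scheme over `S`, then `G` is the kernel of the multiplication by an integer, and `Y` is
birational to an arbitrary abelian variety over the function field of `S` which is isogenous to the
generic fibre of `X` (such as the families of Moret-Bailly over surfaces).

The proof: (1) the determinants of the traces of the relation generate an ideal which is extended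
from `S` (the relation is generated by as many elements as its degree, over the function field of
`S`; for actions of group schemes: a lemma of Artin for Hopf algebras); (2) `S` is replaced by a
smooth projective surface `S'` on which this ideal is invertible; (3) then `X ×_S S'` is locally free
over the quotient (the discriminant is invertible up to a norm), so that (4) the quotient is smooth
over `k`, by the descent of smoothness along flat morphisms (Kunz's theorem).

helper40; built on the library of the starting files (W558, W418, H920R2).
-/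

set_option autoImplicit false

open AlgebraicGeometry CategoryTheory TensorProduct Pool.Agent.W558

namespace Pool.Agent.Results.MP_4d1008_ag.FiniteQuotients

/-- Every integral scheme `Y` of finite type over `ℤ` whose function field is isomorphic to `M` has a
regular model `X'` proper over `ℤ`. -/
def HasRegularModels (M : Type) [Field M] : Prop :=
  ∀ (Y : Scheme.{0}) (_ : IsIntegral Y) (g : Y ⟶ Spec (CommRingCat.of ℤ))
    (_ : LocallyOfFiniteType g) (_ : QuasiCompact g), Nonempty (Y.functionField ≃+* M) →
    ∃ (X' : Scheme.{0}) (_ : IsIntegral X') (g' : X' ⟶ Spec (CommRingCat.of ℤ)),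
      IsProper g' ∧
      (∀ x : X',
        (((Module.finrank (IsLocalRing.ResidueField (X'.presheaf.stalk x))
            (IsLocalRing.CotangentSpace (X'.presheaf.stalk x)) : ℕ∞)) : WithBot ℕ∞)
          = ringKrullDim (X'.presheaf.stalk x)) ∧
      Nonempty (X'.functionField ≃+* Y.functionField)

section family

variable {k E L : Type} [Field k] [Field E] [Field L] [Algebra k E] [Algebra k L] [Algebra E L]
  [IsScalarTower k E L] {m n l : ℕ}

/-- The coordinate ring `k[s_0 / s_j, ..., s_m / s_j]` of the chart `S_j` of the projective variety
`S` over `k` with the homogeneous coordinates `s_0, ..., s_m` in `E`. -/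
noncomputable def baseChart (k : Type) [Field k] {E : Type} [Field E] [Algebra k E] {m : ℕ}
    (s : Fin (m + 1) → E) (j : Fin (m + 1)) : Subalgebra k E :=
  Algebra.adjoin k (Set.range fun i => s i / s j)

/-- The coordinate ring of the chart `X_ja` over `S_j` of the projective scheme `X` over `S` with the
homogeneous coordinates `y_0, ..., y_n, z_1, ..., z_l` in `L`, where `y_a ≠ 0`. -/
noncomputable def chart (k : Type) [Field k] {E L : Type} [Field E] [Field L] [Algebra k L]
    [Algebra E L] {m n l : ℕ} (s : Fin (m + 1) → E) (y : Fin (n + 1) → L) (z : Fin l → L)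
    (j : Fin (m + 1)) (a : Fin (n + 1)) : Subalgebra k L :=
  Algebra.adjoin k ((Set.range fun i => algebraMap E L (s i / s j)) ∪
    ((Set.range fun b => y b / y a) ∪ Set.range fun c => z c / y a))

/-- The ring `k[s_0 / s_j, ..., s_m / s_j, y_0 / y_a, ..., y_n / y_a]`. -/
noncomputable def imageChart (k : Type) [Field k] {E L : Type} [Field E] [Field L] [Algebra k L]
    [Algebra E L] {m n : ℕ} (s : Fin (m + 1) → E) (y : Fin (n + 1) → L)
    (j : Fin (m + 1)) (a : Fin (n + 1)) : Subalgebra k L :=
  Algebra.adjoin k ((Set.range fun i => algebraMap E L (s i / s j)) ∪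
    Set.range fun b => y b / y a)

lemma algebraMap_mem (s : Fin (m + 1) → E) (y : Fin (n + 1) → L) (z : Fin l → L)
    (j : Fin (m + 1)) (a : Fin (n + 1)) (x : E) (hx : x ∈ baseChart k s j) :
    algebraMap E L x ∈ chart k s y z j a :=
  Pool.Agent.Q40.FC.bch_cch s y z j a x hx

/-- The homomorphism of the coordinate rings of `X_ja → S_j`. -/
noncomputable def chartMap (k : Type) [Field k] {E L : Type} [Field E] [Field L] [Algebra k E]
    [Algebra k L] [Algebra E L] [IsScalarTower k E L] {m n l : ℕ} (s : Fin (m + 1) → E)
    (y : Fin (n + 1) → L) (z : Fin l → L) (j : Fin (m + 1)) (a : Fin (n + 1)) :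
    baseChart k s j →+* chart k s y z j a :=
  ((algebraMap E L).comp (baseChart k s j).val.toRingHom).codRestrict (chart k s y z j a)
    (fun x => algebraMap_mem s y z j a x.1 x.2)

/-- The smooth projective family `X → S` with the homogeneous coordinates `s_j` of `S` in the
function field `E` of `S`, and `y_a`, `z_c` of `X` over `S` in the function field `L` of `X`, such
that the `y_a` have no common zero on `X`. -/
structure IsSmoothFamily (k : Type) [Field k] {E L : Type} [Field E] [Field L] [Algebra k E]
    [Algebra k L] [Algebra E L] [IsScalarTower k E L] {m n l : ℕ} (s : Fin (m + 1) → E)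
    (y : Fin (n + 1) → L) (z : Fin l → L) : Prop where
  s_ne : ∀ j, s j ≠ 0
  y_ne : ∀ a, y a ≠ 0
  /-- `E` is the function field of `S` -/
  frac_base : ∀ j (x : E), ∃ b ∈ baseChart k s j, ∃ c ∈ baseChart k s j, c ≠ 0 ∧ x = b / c
  /-- `L` is the function field of `X` -/
  frac : ∀ j a (x : L), ∃ b ∈ chart k s y z j a, ∃ c ∈ chart k s y z j a, c ≠ 0 ∧ x = b / c
  /-- `X` is smooth over `S` -/
  smooth : ∀ j a, (chartMap k s y z j a).Smooth
  /-- `X` is the union of the charts `X_ja`, and finite over the image of `(s, y)` -/
  integral : ∀ j a c, IsIntegral (imageChart k s y j a) (z c / y a)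

end family

section relation

variable {k E L : Type} [Field k] [Field E] [Field L] [Algebra k E] [Algebra k L] [Algebra E L]
  [IsScalarTower k E L]

/-- For a subalgebra `B` of `L` and a set `A` of elements of an `L`-algebra `T`: the `B`-submodule of
`T` generated by `A`. -/
def gen (B : Subalgebra k L) {T : Type} [CommRing T] [Algebra L T] (A : Set T) : Submodule B T :=
  Submodule.span B A

/-- The coordinate ring `L ⊗[F] L` of the generic fibre of the equivalence relation of a quotient
with the function field `F`. -/
def Square (F : IntermediateField E L) : Type := L ⊗[F] L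

noncomputable instance (F : IntermediateField E L) : CommRing (Square F) :=
  (Algebra.TensorProduct.instCommRing : CommRing (L ⊗[F] L))

noncomputable instance (F : IntermediateField E L) : Algebra L (Square F) :=
  (Algebra.TensorProduct.leftAlgebra : Algebra L (L ⊗[F] L))

noncomputable instance (F : IntermediateField E L) : Module E (Square F) :=
  (TensorProduct.leftModule : Module E (L ⊗[F] L))

/-- The element `1 ⊗ x` of `L ⊗[F] L`. -/
noncomputable def Square.right (F : IntermediateField E L) (x : L) : Square F := (1 : L) ⊗ₜ[F] x

/-- The equivalence relation of the finite quotient `Y` of `X`, with the function field `F`, is the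
base change of a scheme over `S`, on the affine chart `Spec B` of `X`: the `B`-submodule of
`L ⊗[F] L` generated by the elements `1 ⊗ b`, `b ∈ B` (the coordinate ring of the closure in
`Spec B ×_S Spec B` of the generic fibre of the relation) is generated by a set `V` contained in a
linear subspace over the function field `E` of `S` which is spanned by `[L : F]` elements. -/
def IsConstantRelation (F : IntermediateField E L) (B : Subalgebra k L) : Prop :=
  ∃ (V : Set (Square F)) (w : Fin (Module.finrank F L) → Square F),
    (∀ v ∈ V, v ∈ Submodule.span E (Set.range w)) ∧ gen B (Square.right F '' B) = gen B V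

end relation

section action

/-- The algebra `L ⊗[E] Q`, for a group scheme `Spec Q` over the field `E`. -/
def Graph (E L Q : Type) [Field E] [Field L] [Algebra E L] [CommRing Q] [HopfAlgebra E Q] : Type :=
  L ⊗[E] Q

variable {k E L P Q : Type} [Field k] [Field E] [Field L] [Algebra k E] [Algebra k L]
  [Algebra E L] [IsScalarTower k E L] [CommRing P] [HopfAlgebra E P] [CommRing Q] [HopfAlgebra E Q]

noncomputable instance : CommRing (Graph E L Q) :=
  (Algebra.TensorProduct.instCommRing : CommRing (L ⊗[E] Q))

noncomputable instance : Algebra L (Graph E L Q) :=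
  (Algebra.TensorProduct.leftAlgebra : Algebra L (L ⊗[E] Q))

noncomputable instance : Algebra E (Graph E L Q) :=
  (Algebra.TensorProduct.leftAlgebra : Algebra E (L ⊗[E] Q))

/-- The element `x ⊗ q`. -/
noncomputable def Graph.tmul (x : L) (q : Q) : Graph E L Q := x ⊗ₜ[E] q

/-- The map `id ⊗ φ : L ⊗ Q → L`, for a linear functional `φ` on `Q`. -/
noncomputable def Graph.eval (φ : Q →ₗ[E] E) : Graph E L Q →ₗ[E] L :=
  ((TensorProduct.rid E L).toLinearMap ∘ₗ TensorProduct.map LinearMap.id φ : L ⊗[E] Q →ₗ[E] L)

/-- The homomorphism `id ⊗ q : L ⊗ P → L ⊗ Q`, for the subgroup scheme `Spec Q` of `Spec P` which is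
given by the homomorphism `q` of Hopf algebras. -/
noncomputable def Graph.restrict (q : P →ₐc[E] Q) : Graph E L P →ₐ[E] Graph E L Q :=
  (Algebra.TensorProduct.map (AlgHom.id E L) (q : P →ₐ[E] Q) : L ⊗[E] P →ₐ[E] L ⊗[E] Q)

/-- The functional `φ ⊗ ψ` on `Q ⊗ Q`. -/
noncomputable def pair (φ ψ : Q →ₗ[E] E) : Q ⊗[E] Q →ₗ[E] E :=
  LinearMap.mul' E E ∘ₗ TensorProduct.map φ ψ

/-- The product of linear functionals on `Q` (the convolution): `(φ * ψ)(q) = φ(q_1) ψ(q_2)`. -/
noncomputable def conv (φ ψ : Q →ₗ[E] E) : Q →ₗ[E] E := pair φ ψ ∘ₗ Coalgebra.comul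

/-- The operator `(id ⊗ φ) ∘ h` on `L`. -/
noncomputable def operator (h : L → Graph E L Q) (φ : Q →ₗ[E] E) (x : L) : L := Graph.eval φ (h x)

/-- An action of the group scheme `Spec Q` over `E` on `Spec L`: a homomorphism `hom : L → L ⊗ Q` of
`E`-algebras, such that the operators `(id ⊗ φ) ∘ hom` on `L` define an action of the dual algebra
of `Q`. -/
structure Action (E L Q : Type) [Field E] [Field L] [Algebra E L] [CommRing Q]
    [HopfAlgebra E Q] where
  hom : L →ₐ[E] Graph E L Q
  assoc : ∀ (φ ψ : Q →ₗ[E] E) (x : L),
    operator hom φ (operator hom ψ x) = operator hom (conv φ ψ) x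
  unit : ∀ x : L, operator hom Coalgebra.counit x = x

/-- `F` is the field of invariants of the action. -/
def Action.IsInvariantField (ρ : Action E L Q) (F : IntermediateField E L) : Prop :=
  ∀ x, x ∈ F ↔ ρ.hom x = Graph.tmul x 1

/-- `F` is the field of invariants of the closed subgroup scheme `Spec Q` of `Spec P`, which is
given by the surjective homomorphism `q` of Hopf algebras. -/
def Action.IsInvariantFieldOf (τ : Action E L P) (q : P →ₐc[E] Q) (F : IntermediateField E L) :
    Prop :=
  Function.Surjective q ∧ ∀ x, x ∈ F ↔ Graph.restrict q (τ.hom x) = Graph.tmul x 1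

/-- The action of the group scheme `N = Spec Q` over `E` on the chart `Spec B` is free, and the
closure in `Spec B ×_S Spec B` of its relation is the base change of a scheme over `S`, with the
coordinate ring generated by the set `V` of functions on `N`. -/
def Action.IsFree (ρ : Action E L Q) (B : Subalgebra k L) (V : Set Q) : Prop :=
  Submodule.span E V = ⊤ ∧ gen B (ρ.hom '' B) = gen B (Graph.tmul (1 : L) '' V)

end action

section quotients

variable (k : Type) [Field k] {E L : Type} [Field E] [Field L] [Algebra k E] [Algebra k L]
  [Algebra E L] [IsScalarTower k E L] {m n l : ℕ} (s : Fin (m + 1) → E) (y : Fin (n + 1) → L)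
  (z : Fin l → L) (F : IntermediateField E L)

/-- The finite quotient of `X` with the function field `F` has an equivalence relation which is the
base change of a scheme over `S`. -/
def IsConstantQuotient : Prop :=
  FiniteDimensional F L ∧ ∀ j a, IsConstantRelation F (chart k s y z j a)

/-- `F` is the field of invariants of a finite group scheme `Spec Q` over `E` which acts freely on
the generic fibre of `X`, such that the closure of its relation in `X ×_S X` is the base change of
a scheme over `S`. -/
def IsGroupQuotient : Prop :=
  ∃ (Q : Type) (_ : CommRing Q) (_ : HopfAlgebra E Q) (ρ : Action E L Q), Module.Finite E Q ∧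
    ρ.IsInvariantField F ∧ ∀ j a, ∃ V, ρ.IsFree (chart k s y z j a) V

/-- `F` is the field of invariants of a finite subgroup scheme `Spec Q` of the generic fibre `Spec P`
of a group scheme `G` over `S` which acts freely on `X`; here `V j ⊆ P` is the coordinate ring of `G`
over the chart `S_j` of `S`. -/
def IsSubgroupQuotient : Prop :=
  ∃ (P Q : Type) (_ : CommRing P) (_ : HopfAlgebra E P) (_ : CommRing Q) (_ : HopfAlgebra E Q)
    (τ : Action E L P) (q : P →ₐc[E] Q) (V : Fin (m + 1) → Set P), Module.Finite E Q ∧
    τ.IsInvariantFieldOf q F ∧ ∀ j a, τ.IsFree (chart k s y z j a) (V j)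

end quotients

/-- Let `k` be a finite field of characteristic `p`, and `S` a projective surface over `k`, whose
function field `E` is the function field of a smooth projective surface (this is always the case),
or a projective variety of any dimension such that `E` has log smooth projective models
(`HasLogModels`). Let `X` be an integral scheme, smooth and projective over `S`, of any relative
dimension, `L` its function field, and `F` the function field of a finite quotient of `X` over `S`:
an intermediate field which contains the ratios of the homogeneous coordinates `y_a`. Suppose that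

(1) the equivalence relation of the quotient is the base change of a scheme over `S`, or

(2) `F` is the field of invariants of a finite group scheme `Spec Q` over `E` which acts freely on
the generic fibre of `X`, such that the closure of its relation in `X ×_S X` is the base change of a
scheme over `S`, or

(3) `F` is the field of invariants of any finite subgroup scheme `Spec Q` of the generic fibre of a
group scheme `G` over `S` which acts freely on `X`.

Then every integral scheme of finite type over `ℤ` with the function field `F` has a regular model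
which is proper over `ℤ`. -/
theorem result (p : ℕ) [Fact p.Prime] (k E L : Type) [Field k] [Finite k] [CharP k p]
    [Field E] [Field L] [Algebra k E] [Algebra k L] [Algebra E L] [IsScalarTower k E L]
    (hE : (Algebra.trdeg k E = 2 ∧ HasModel k E) ∨ HasLogModels k E)
    (m n l : ℕ) (s : Fin (m + 1) → E) (y : Fin (n + 1) → L) (z : Fin l → L)
    (hX : IsSmoothFamily k s y z) (F : IntermediateField E L) (hF : ∀ a b, y b / y a ∈ F)
    (hq : IsConstantQuotient k s y z F ∨ IsGroupQuotient k s y z F ∨ IsSubgroupQuotient k s y z F) :
    HasRegularModels F := by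
  classical
  have hE' : Pool.Agent.W418.LCI.HasLM k E := by
    rcases hE with ⟨h2, hE⟩ | hE
    · exact Pool.Agent.W418.LCI.hasLM_of_surface k _ h2 hE
    · exact Pool.Agent.W418.LCI.hasLM_of_models k _ hE
  have hmod : (∃ (T : Type) (_ : Finite T) (M : Pool.Agent.W558.LM (⊥ : Subalgebra k F) ⊤ T Empty),
        ∀ t (x : F), ∃ b ∈ M.A t, ∃ c ∈ M.A t, c ≠ 0 ∧ x = b / c) → HasRegularModels F := by
    rintro ⟨T, hT, MM, hfr⟩ Y _ g _ _ ⟨ε⟩
    obtain ⟨X', hX', g', h1, h2, ⟨h3⟩⟩ := Pool.Agent.W418.Z.regular_of_LM MM hfr
    exact ⟨X', hX', g', h1, h2, ⟨h3.trans ε.symm⟩⟩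
  have h2 : ∀ (Q : Type) [CommRing Q] [HopfAlgebra E Q] [Module.Finite E Q]
      (ρ : L →ₐ[E] L ⊗[E] Q), Pool.Agent.Q40.FC.IsCoaction ρ →
      (∀ x, x ∈ F ↔ ρ x = x ⊗ₜ 1) →
      (∀ j a, Pool.Agent.Q40.FC.IsConst ρ (chart k s y z j a)) → HasRegularModels F := by
    intro Q _ _ _ ρ hρ hF1 hV
    have hFF : F = Pool.Agent.Q40.FC.coinv ρ := by
      ext x
      exact hF1 x
    subst hFF
    obtain ⟨e, eT, w, heT⟩ := Pool.Agent.Q40.FC.exists_frame ρ hρ
      (Pool.Agent.Q40.FC.span_range_of_const (hV 0 0))
    choose V hV1 hV2 using hV
    refine hmod (Pool.Agent.Q40.FC.main_frame s y z p hE' hX.s_ne hX.y_ne hX.frac_base hX.frac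
      hX.smooth _ hF hX.integral e (ρ : L →+* L ⊗[E] Q) (fun x hx => hx) eT heT
      (fun j a => (fun v => (1 : L) ⊗ₜ[E] v) '' V j a) hV2 (fun j a i => (1 : L) ⊗ₜ[E] w i) ?_)
    rintro j a _ ⟨v, -, rfl⟩
    change (1 : L) ⊗ₜ[E] v ∈ _
    rw [← w.sum_repr v, TensorProduct.tmul_sum]
    refine Submodule.sum_mem _ fun i _ => ?_
    rw [TensorProduct.tmul_smul]
    exact Submodule.smul_mem _ _ (Submodule.subset_span ⟨i, rfl⟩)
  rcases hq with ⟨hfd, hc⟩ | ⟨Q, _, _, ρ, hfin, hF1, hV⟩ | ⟨P, Q, _, _, _, _, τ, q, V, hfin, ⟨hq, hF1⟩, hV⟩
  · choose V w hw hV using hc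
    let e := Module.finBasis F L
    refine hmod (Pool.Agent.Q40.FC.main_frame s y z p hE' hX.s_ne hX.y_ne hX.frac_base hX.frac
      hX.smooth _ hF hX.integral e
      (Algebra.TensorProduct.includeRight : L →ₐ[F] L ⊗[F] L).toRingHom ?_
      (Algebra.TensorProduct.basis L e) ?_ V hV w hw)
    · intro x hx
      exact (Algebra.TensorProduct.includeRight : L →ₐ[F] L ⊗[F] L).commutes ⟨x, hx⟩
    · intro i
      exact Algebra.TensorProduct.basis_apply e i
  · exact h2 Q ρ.hom (Pool.Agent.Q40.FC.isCoaction_of_ops ρ.hom ρ.assoc ρ.unit) hF1 hV
  · exact h2 Q (Pool.Agent.Q40.FC.restr q τ.hom)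
      (Pool.Agent.Q40.FC.isCoaction_restr q τ.hom
        (Pool.Agent.Q40.FC.isCoaction_of_ops τ.hom τ.assoc τ.unit)) hF1
      fun j a => Pool.Agent.Q40.FC.isConst_restr q τ.hom hq _ (V j) (hV j a).1 (hV j a).2

end Pool.Agent.Results.MP_4d1008_ag.FiniteQuotients
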