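import Pool.Agent.Q17.Res.Gl2

/-!
MP_4d1008_ag: regular models, proper over `ℤ`, of the schemes birational to the iterated quotients
of (possibly singular) proper varieties over finite fields of characteristic `p` by arbitrary finite
`p`-groups and by `p`-closed foliations of arbitrary rank, whose leading forms along the centre of a
smooth weighted blowup are linearly independent outside the vertex, and by finite groups of scalars
acting by weighted polynomials. This generalizes `MP_4d1008_ag.TowerQuotients` (automorphisms of
order `p` and single vector fields): the conditions are imposed on the group or the foliation on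
the given variety, not on the successive quotients.

For example, let `E` and `E'` be families of elliptic curves over smooth proper curves `S` and `S'`
with sections `P` and `P'` of order `p` which meet the zero sections: this contains the quotients of
the products of powers of `E` and `E'` over `S × S'` by groups `(ℤ/p)^r` of translations by sections
with coordinates in `ℤ P` and `ℤ P'` whose `E`- and `E'`-parts are both linearly independent modulo
`p`.

The proof. Let `R` be the extended Rees algebra. The invariants of the group, or the constants of the
foliation, in a localization of `R` at a point outside the vertex are shown to be smooth by means of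
slices: in the special fibre the group degenerates into commuting derivations `D i` with
`D i x j = δ i j`. The smooth charts of the quotient are glued to a regular scheme proper over `ℤ`
by the theorem of the starting library.
-/

set_option autoImplicit false

open AlgebraicGeometry CategoryTheory Pool.Agent.H920R2 Pool.Agent.H519R3.RS Q17.Res

namespace Pool.Agent.Results.MP_4d1008_ag.GroupFoliationTowers

/-- Let `k` be a finite field of characteristic `p`, `X` a proper integral scheme over `k` with
function field `L` and `F` a filtration of its structure sheaf by sheaves of ideals, given by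
finitely many affine charts `Spec (B a)` (`Charts`). Suppose that, for every chart `a`, `F a` is
multiplicative with `F a 0 = B a` and `F a 1 ≠ 0` and

* either the weighted blowup of `F a` is smooth (`Good`; here `B a` may be singular),
* or `B a` is smooth and `F a` is a regular weighted centre.

Let `M` be a field between `k` and `L` which contains the `h a`, such that, for every `a`, there is
a chain `B a = C a 0 ⊇ C a 1 ⊇ ... ⊇ C a n = B a ∩ M` of subalgebras such that, for every `i`,

* `C a (i + 1)` is the ring of invariants of a finite `p`-group acting on `C a i` with linearly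
  independent leading forms (`GStep`),
* or `C a (i + 1)` is the ring of invariants of a finite group of scalars acting on `C a i` by
  weighted polynomials (`AStep`),
* or `C a (i + 1)` is the ring of constants of a `p`-closed foliation of `C a i` of arbitrary rank
  with linearly independent leading forms (`FStep`).

Then every integral scheme `Y` of finite type over `ℤ` whose function field is isomorphic to `M`
has a regular model proper over `ℤ`. -/
theorem result (p : ℕ) [Fact p.Prime] (k : Type) [Field k] [Finite k] [CharP k p]
    (L : Type) [Field L] [Algebra k L] (𝒜 : Type) [Finite 𝒜] (B : 𝒜 → Subalgebra k L)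
    (h : 𝒜 → L) (F : ∀ a, ℕ → Ideal (B a)) (hX : Charts B h F) (hF : ∀ a, IsFilt (F a))
    (hne : ∀ a, F a 1 ≠ ⊥)
    (hG : ∀ a, Good k (hF a) ∨ (Algebra.Smooth k (B a) ∧ RegularWeightedCentre k (F a)))
    (M : IntermediateField k L) (hM : ∀ a, h a ∈ M)
    (n : ℕ) (C : ∀ a, ℕ → Subalgebra k (B a)) (hC0 : ∀ a, C a 0 = ⊤)
    (hC : ∀ a, ∀ i < n, GStep p (F a) (C a i) (C a (i + 1)) ∨
      AStep (F a) (C a i) (C a (i + 1)) ∨ FStep p (F a) (C a i) (C a (i + 1)))
    (hCn : ∀ a (x : B a), x ∈ C a n ↔ (x : L) ∈ M)
    (Y : Scheme.{0}) (_ : IsIntegral Y) (s : Y ⟶ Spec (CommRingCat.of ℤ))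
    (_ : LocallyOfFiniteType s) (_ : QuasiCompact s)
    (_ : Nonempty (Y.functionField ≃+* M)) :
    ∃ (X' : Scheme.{0}) (_ : IsIntegral X') (g : X' ⟶ Spec (CommRingCat.of ℤ)),
      IsProper g ∧
      (∀ x : X',
        (((Module.finrank (IsLocalRing.ResidueField (X'.presheaf.stalk x))
            (IsLocalRing.CotangentSpace (X'.presheaf.stalk x)) : ℕ∞)) : WithBot ℕ∞)
          = ringKrullDim (X'.presheaf.stalk x)) ∧
      Nonempty (X'.functionField ≃+* Y.functionField) := by
  have hp : p.Prime := Fact.out
  have hpk : (p : k) = 0 := CharP.cast_eq_zero k p
  have hG' : ∀ a, Good k (hF a) := by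
    intro a
    rcases hG a with h | ⟨h1, h2⟩
    · exact h
    · exact good_of_centre (hF a) h2
  obtain ⟨W, hW, I, hI, z, J, hmod⟩ :=
    model_of_chartsS hp hpk hX hF hne hG' M hM n C hC0 hC hCn
  obtain ⟨X', hX', g, h1, h2, ⟨h3⟩⟩ := exists_regular_model M hmod hW
  obtain ⟨ε⟩ := ‹Nonempty (Y.functionField ≃+* M)›
  exact ⟨X', hX', g, h1, h2, ⟨h3.trans ε.symm⟩⟩

end Pool.Agent.Results.MP_4d1008_ag.GroupFoliationTowers
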