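import Pool.Agent.Q40.OD.Res

/-!
MP_4d1008_ag: resolution of singularities in mixed characteristic for a positive proportion of all
hypersurfaces of each degree `d ≥ 3` and each dimension `n ≥ 1`, over all number fields at once:
their function fields are the function fields of regular integral schemes, proper over the
integers. For all but a proportion `ε` of the hypersurfaces the same holds over `ℤ[1/N]`, where `N`
depends only on `n`, `d` and `ε`.
-/

set_option autoImplicit false

open AlgebraicGeometry CategoryTheory MvPolynomial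

namespace Pool.Agent.Results.MP_4d1008_ag.PositiveProportion

/-- The forms of degree `d` in `n + 2` variables with integral coefficients of absolute value at
most `H`. -/
def IsBoundedForm (n d H : ℕ) (f : MvPolynomial (Fin (n + 2)) ℤ) : Prop :=
  f.IsHomogeneous d ∧ ∀ m, |coeff m f| ≤ H

/-- The number of the forms of degree `d` in `n + 2` variables with integral coefficients of absolute
value at most `H` which have the property `P`. -/
noncomputable def count (n d H : ℕ) (P : MvPolynomial (Fin (n + 2)) ℤ → Prop) : ℝ :=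
  Nat.card {f : MvPolynomial (Fin (n + 2)) ℤ // IsBoundedForm n d H f ∧ P f}

/-- A positive proportion of the forms of degree `d` in `n + 2` variables has the property `P`. -/
def HoldsForPositiveProportion (n d : ℕ) (P : MvPolynomial (Fin (n + 2)) ℤ → Prop) : Prop :=
  ∃ δ : ℝ, 0 < δ ∧ ∃ H₀ : ℕ, ∀ H : ℕ, H₀ ≤ H →
    δ * count n d H (fun _ => True) ≤ count n d H P

/-- All forms of degree `d` in `n + 2` variables but a proportion `ε` have the property `P`. -/
def HoldsUpToProportion (n d : ℕ) (ε : ℝ) (P : MvPolynomial (Fin (n + 2)) ℤ → Prop) : Prop :=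
  ∃ H₀ : ℕ, ∀ H : ℕ, H₀ ≤ H →
    count n d H (fun f => ¬ P f) ≤ ε * count n d H (fun _ => True)

/-- The polynomial in the variables `X j`, `j ≠ 0`, obtained from `G` by setting `X 0 = 1`. -/
noncomputable def dehom {R : Type} [CommRing R] {n : ℕ} (G : MvPolynomial (Fin (n + 2)) R) :
    MvPolynomial {j : Fin (n + 2) // j ≠ 0} R :=
  aeval (fun j => if h : j = 0 then 1 else X ⟨j, h⟩) G

/-- The hypersurface `f = 0` over the rational numbers is smooth: the partial derivatives of `f` have
no common zero over an algebraic closure but the origin. -/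
def IsSmooth {n : ℕ} (f : MvPolynomial (Fin (n + 2)) ℤ) : Prop :=
  ∀ i, X i ∈ (Ideal.span (Set.range fun j =>
    pderiv j (map (Int.castRingHom ℚ) f))).radical

/-- The coordinate ring `K[X j, j ≠ 0] / (f(1, X))` of the chart `X 0 ≠ 0` of the hypersurface
`f = 0` over `K`. -/
def CoordinateRing (K : Type) [Field K] {n : ℕ} (f : MvPolynomial (Fin (n + 2)) ℤ) : Type :=
  MvPolynomial {j : Fin (n + 2) // j ≠ 0} K ⧸ Ideal.span {dehom (map (Int.castRingHom K) f)}

noncomputable instance (K : Type) [Field K] {n : ℕ} (f : MvPolynomial (Fin (n + 2)) ℤ) :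
    CommRing (CoordinateRing K f) :=
  Ideal.Quotient.commRing (Ideal.span {dehom (map (Int.castRingHom K) f)})

/-- `F` is isomorphic to the function field of the hypersurface `f = 0` over the field `K`. -/
def IsFunctionField (K : Type) [Field K] {n : ℕ} (f : MvPolynomial (Fin (n + 2)) ℤ) (F : Type)
    [Field F] : Prop :=
  Nonempty (F ≃+* FractionRing (CoordinateRing K f))

/-- The local rings of `X` are regular: their dimension is the dimension of their cotangent
space. -/
def IsRegularScheme (X : Scheme.{0}) : Prop :=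
  ∀ x : X, (((Module.finrank (IsLocalRing.ResidueField (X.presheaf.stalk x))
    (IsLocalRing.CotangentSpace (X.presheaf.stalk x)) : ℕ∞)) : WithBot ℕ∞) =
      ringKrullDim (X.presheaf.stalk x)

/-- The function field of the hypersurface `f = 0` over `K` is the function field of an integral
regular scheme which is proper over `A`. -/
def HasRegularModel (A : Type) [CommRing A] (K : Type) [Field K] {n : ℕ}
    (f : MvPolynomial (Fin (n + 2)) ℤ) : Prop :=
  ∃ (X : Scheme.{0}) (_ : IsIntegral X) (g : X ⟶ Spec (CommRingCat.of A)),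
    IsProper g ∧ IsRegularScheme X ∧ IsFunctionField K f X.functionField

/-- The hypersurface `f = 0` is smooth over the rational numbers, and for every number field `K` its
function field over `K` is the function field of an integral regular scheme which is proper over
`A`. -/
def HasRegularModels (A : Type) [CommRing A] {n : ℕ} (f : MvPolynomial (Fin (n + 2)) ℤ) : Prop :=
  IsSmooth f ∧ ∀ (K : Type) [Field K] [NumberField K], HasRegularModel A K f

theorem result :
    ∀ n d : ℕ, 1 ≤ n → 3 ≤ d →
      HoldsForPositiveProportion n d (HasRegularModels ℤ) ∧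
      ∀ ε : ℝ, 0 < ε → ∃ N : ℕ, N ≠ 0 ∧
        HoldsUpToProportion n d ε (HasRegularModels (Localization.Away (N : ℤ))) := by
  intro n d hn hd
  have key : ∀ (A O K : Type) [CommRing A] [CommRing O] [IsDedekindDomain O] [Algebra A O]
      [Module.Finite A O] [Field K] [Algebra O K] [IsFractionRing O K] [CharZero K] (N : ℕ)
      (f : MvPolynomial (Fin (n + 2)) ℤ), IsUnit (N : O) → f.IsHomogeneous d →
      Pool.Agent.Q40.OD.Good N f → HasRegularModel A K f := by
    intro A O K _ _ _ _ _ _ _ _ _ N f hN hf hgood
    have hsmK : Pool.Agent.TH214.RM.Smooth (map (Int.castRingHom K) f) := by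
      have h1 := Pool.Agent.Q40.OD.smooth_map (algebraMap ℚ K) _ hgood.1
      rw [map_map] at h1
      have h2 : (algebraMap ℚ K).comp (Int.castRingHom ℚ) = Int.castRingHom K :=
        RingHom.ext_int _ _
      rwa [h2] at h1
    have hloc : Pool.Agent.Q40.OD.LocGood O (map (Int.castRingHom K) f) :=
      Pool.Agent.Q40.OD.locGood_of_nondeg N hN f d hf hgood.1 hgood.2
    have hirr := Pool.Agent.TH214.RM.irreducible_of_smooth hn _ d (by omega) (hf.map _) hsmK
    have hdom : (Ideal.span {Pool.Agent.TH214.RM.deh 0 (map (Int.castRingHom K) f)}).IsPrime :=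
      Pool.Agent.Q40.OD.span_deh_prime _ hirr d (hf.map _)
        (Pool.Agent.TH214.RM.not_dvd_X _ hirr.ne_zero d (by omega) (hf.map _))
    let F := FractionRing (MvPolynomial {j : Fin (n + 2) // j ≠ 0} K ⧸
      Ideal.span {Pool.Agent.TH214.RM.deh 0 (map (Int.castRingHom K) f)})
    obtain ⟨X, hX, g, hg, hreg, ⟨e⟩⟩ := Pool.Agent.Q40.OD.od_birationalA (A := A) (O := O) hn
      (map (Int.castRingHom K) f) d (by omega) (hf.map _) hsmK hloc (F := F) (RingEquiv.refl _)
    exact ⟨X, hX, g, hg, hreg, ⟨e⟩⟩
  have hall : ∀ H : ℕ, count n d H (fun _ => True) =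
      (Nat.card {f : MvPolynomial (Fin (n + 2)) ℤ // f.IsHomogeneous d ∧
        ∀ m, |coeff m f| ≤ H} : ℝ) := by
    intro H
    unfold count IsBoundedForm
    simp only [and_true]
  have hcount : ∀ (H : ℕ) (P : MvPolynomial (Fin (n + 2)) ℤ → Prop), count n d H P =
      (Nat.card {f : MvPolynomial (Fin (n + 2)) ℤ // f.IsHomogeneous d ∧
        (∀ m, |coeff m f| ≤ H) ∧ P f} : ℝ) := by
    intro H P
    unfold count IsBoundedForm
    simp only [and_assoc]
  constructor
  · obtain ⟨δ, hδ, H₀, h⟩ := Pool.Agent.Q40.OD.density_pos n d hd (HasRegularModels ℤ)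
      fun f hf hgood => ⟨hgood.1, fun K _ _ =>
        key ℤ (NumberField.RingOfIntegers K) K 1 f (by simp) hf hgood⟩
    refine ⟨δ, hδ, H₀, fun H hH => ?_⟩
    rw [hall, hcount]
    exact h H hH
  · intro ε hε
    obtain ⟨N, hN, H₀, h⟩ := Pool.Agent.Q40.OD.density_one n d (by omega)
      (fun N f => HasRegularModels (Localization.Away (N : ℤ)) f)
      (fun N f hN hf hgood => ⟨hgood.1, fun K _ _ => by
        obtain ⟨O, _, _, _, _, _, hfr, hu⟩ := Pool.Agent.Q40.OD.exists_away K N hN
        exact key (Localization.Away (N : ℤ)) O K N f hu hf hgood⟩) ε hε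
    refine ⟨N, hN, H₀, fun H hH => ?_⟩
    rw [hall, hcount]
    exact h H hH

end Pool.Agent.Results.MP_4d1008_ag.PositiveProportion
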